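import Mathlib

open Set Filter Topology

namespace Pool.Agent.V1146.GWS

theorem second_diff (H : ℝ → ℝ) {δ : ℝ} (hδ : 0 < δ) (hH : ContDiffOn ℝ 2 H (Ico 0 δ)) :
    ∃ K η : ℝ, 0 < η ∧ ∀ x w : ℝ, 0 ≤ x - w → 0 < w → x + w < η →
      H (x - w) + H (x + w) - 2 * H x ≤ K * w ^ 2 := by
  have hu : UniqueDiffOn ℝ (Ico (0 : ℝ) δ) := uniqueDiffOn_Ico 0 δ
  set H1 : ℝ → ℝ := derivWithin H (Ico 0 δ) with hH1
  have h1 : ContDiffOn ℝ 1 H1 (Ico 0 δ) := hH.derivWithin hu (by norm_num)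
  have h0 : (0 : ℝ) ∈ Ico (0 : ℝ) δ := ⟨le_refl _, hδ⟩
  obtain ⟨K, t, ht, hL⟩ := (h1 0 h0).exists_lipschitzOnWith (convex_Ico 0 δ)
  rw [nhdsWithin_Ico_eq_nhdsGE hδ] at ht
  obtain ⟨η, hη, hsub⟩ := (mem_nhdsGE_iff_exists_Ico_subset).1 ht
  have hη0 : 0 < η := hη
  refine ⟨2 * K, min η δ, lt_min hη0 hδ, fun x w hxw hw hx => ?_⟩
  have hd : ∀ y ∈ Ioo (0 : ℝ) δ, HasDerivAt H (H1 y) y := by
    intro y hy
    have h2 : DifferentiableWithinAt ℝ H (Ico 0 δ) y :=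
      (hH.differentiableOn (by norm_num)) y ⟨hy.1.le, hy.2⟩
    exact h2.hasDerivWithinAt.hasDerivAt (Ico_mem_nhds hy.1 hy.2)
  have hc : ∀ a b : ℝ, 0 ≤ a → b < δ → ContinuousOn H (Icc a b) := fun a b ha hb =>
    hH.continuousOn.mono fun y hy => ⟨ha.trans hy.1, lt_of_le_of_lt hy.2 hb⟩
  have hxδ : x + w < δ := lt_of_lt_of_le hx (min_le_right _ _)
  have hxη : x + w < η := lt_of_lt_of_le hx (min_le_left _ _)
  obtain ⟨c, hc1, hc2⟩ := exists_hasDerivAt_eq_slope H H1 (a := x) (b := x + w) (by linarith)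
    (hc _ _ (by linarith) hxδ) (fun y hy => hd y ⟨by linarith [hy.1], by linarith [hy.2]⟩)
  obtain ⟨e, he1, he2⟩ := exists_hasDerivAt_eq_slope H H1 (a := x - w) (b := x) (by linarith)
    (hc _ _ hxw (by linarith)) (fun y hy => hd y ⟨by linarith [hy.1], by linarith [hy.2]⟩)
  have hw' : w ≠ 0 := hw.ne'
  have h3 : H (x + w) - H x = H1 c * w := by
    rw [hc2, show x + w - x = w by ring, div_mul_cancel₀ _ hw']
  have h4 : H x - H (x - w) = H1 e * w := by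
    rw [he2, show x - (x - w) = w by ring, div_mul_cancel₀ _ hw']
  have h5 := hL.dist_le_mul c (hsub ⟨by linarith [hc1.1], by linarith [hc1.2]⟩) e
    (hsub ⟨by linarith [he1.1], by linarith [he1.2]⟩)
  rw [Real.dist_eq, Real.dist_eq] at h5
  have h6 : H1 c - H1 e ≤ K * (2 * w) := by
    have h7 : |c - e| ≤ 2 * w := by
      rw [abs_le]
      constructor <;> linarith [hc1.1, hc1.2, he1.1, he1.2]
    have h8 : (K : ℝ) * |c - e| ≤ K * (2 * w) := mul_le_mul_of_nonneg_left h7 K.2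
    linarith [le_abs_self (H1 c - H1 e)]
  have h9 : H (x - w) + H (x + w) - 2 * H x = (H1 c - H1 e) * w := by
    linear_combination h3 - h4
  rw [h9]
  nlinarith

end Pool.Agent.V1146.GWS
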