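import Mathlib

open Finset

namespace Pool.Agent.V1146.GWS

/-- the average of the first `n` powers of `1 - h` -/
noncomputable def th (n : ℕ) (h : ℝ) : ℝ := (∑ j ∈ range n, (1 - h) ^ j) / n

/-- the scales -/
def sc (i : ℕ) : ℕ := 2 ^ 8 ^ i

theorem sc_zero : sc 0 = 2 := by norm_num [sc]

theorem sc_succ (i : ℕ) : sc (i + 1) = sc i ^ 8 := by
  unfold sc
  rw [pow_succ 8 i, pow_mul]

theorem two_le_sc (i : ℕ) : 2 ≤ sc i := by
  unfold sc
  calc 2 = 2 ^ 1 := by norm_num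
    _ ≤ 2 ^ 8 ^ i := Nat.pow_le_pow_right (by norm_num) (Nat.one_le_pow _ _ (by norm_num))

theorem sc_pos (i : ℕ) : (0 : ℝ) < sc i := by
  have := two_le_sc i
  exact_mod_cast (by omega : 0 < sc i)

theorem two_le_sc' (i : ℕ) : (2 : ℝ) ≤ sc i := by exact_mod_cast two_le_sc i

theorem sc_mono : Monotone sc := by
  intro i j h
  exact Nat.pow_le_pow_right (by norm_num) (Nat.pow_le_pow_right (by norm_num) h)

theorem mul_th {n : ℕ} (hn : 0 < n) (h : ℝ) : h * (n * th n h) = 1 - (1 - h) ^ n := by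
  have hn' : (n : ℝ) ≠ 0 := by positivity
  have h1 : (∑ j ∈ range n, (1 - h) ^ j) * (1 - (1 - h)) = 1 - (1 - h) ^ n :=
    geom_sum_mul_neg (1 - h) n
  unfold th
  rw [mul_div_cancel₀ _ hn', ← h1]
  ring

theorem th_nonneg (n : ℕ) {h : ℝ} (h1 : h ≤ 1) : 0 ≤ th n h :=
  div_nonneg (sum_nonneg fun j _ => pow_nonneg (by linarith) _) (Nat.cast_nonneg _)

theorem th_le_one (n : ℕ) {h : ℝ} (h0 : 0 ≤ h) (h1 : h ≤ 1) : th n h ≤ 1 := by
  unfold th
  refine div_le_one_of_le₀ ?_ (Nat.cast_nonneg _)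
  calc ∑ j ∈ range n, (1 - h) ^ j ≤ ∑ j ∈ range n, (1 : ℝ) :=
        sum_le_sum fun j _ => pow_le_one₀ (by linarith) (by linarith)
    _ = n := by simp

theorem th_anti (n : ℕ) {h h' : ℝ} (hh : h ≤ h') (h1 : h' ≤ 1) : th n h' ≤ th n h := by
  unfold th
  refine div_le_div_of_nonneg_right ?_ (Nat.cast_nonneg _)
  exact sum_le_sum fun j _ => pow_le_pow_left₀ (by linarith) (by linarith) _

theorem th_two (h : ℝ) : th 2 h = 1 - h / 2 := by
  unfold th
  simp only [sum_range_succ, range_zero, sum_empty]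
  push_cast
  ring

theorem th_le_inv {n : ℕ} (hn : 0 < n) {h : ℝ} (h0 : 0 < h) (h1 : h ≤ 1) :
    th n h ≤ 1 / (n * h) := by
  have hn' : (0 : ℝ) < n := by exact_mod_cast hn
  rw [le_div_iff₀ (by positivity)]
  have := mul_th hn h
  have h2 : (0 : ℝ) ≤ (1 - h) ^ n := pow_nonneg (by linarith) _
  nlinarith

theorem th_ge {n : ℕ} (hn : 0 < n) {h : ℝ} (h0 : 0 ≤ h) (h1 : h ≤ 1) :
    1 - n * h ≤ th n h := by
  have hn' : (0 : ℝ) < n := by exact_mod_cast hn
  unfold th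
  rw [le_div_iff₀ hn']
  have h2 : ∀ j ∈ range n, 1 - (n : ℝ) * h ≤ (1 - h) ^ j := by
    intro j hj
    have h3 := one_add_mul_le_pow (a := -h) (by linarith) j
    have h4 : (j : ℝ) ≤ n := by exact_mod_cast (mem_range.1 hj).le
    have h5 : (1 + -h) ^ j = (1 - h) ^ j := by ring
    rw [h5] at h3
    nlinarith
  calc (1 - (n : ℝ) * h) * n = ∑ j ∈ range n, (1 - (n : ℝ) * h) := by
        rw [sum_const, card_range, nsmul_eq_mul, mul_comm]
    _ ≤ _ := sum_le_sum h2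

/-- the terms -/
noncomputable def tt (h : ℝ) (i : ℕ) : ℝ := (1 / 2) ^ i * th (sc i) h

/-- the function `T(h) = 2 - D(h)` -/
noncomputable def T (h : ℝ) : ℝ := ∑' i, tt h i

theorem tt_nonneg {h : ℝ} (h1 : h ≤ 1) (i : ℕ) : 0 ≤ tt h i :=
  mul_nonneg (by positivity) (th_nonneg _ h1)

theorem tt_le {h : ℝ} (h0 : 0 ≤ h) (h1 : h ≤ 1) (i : ℕ) : tt h i ≤ (1 / 2) ^ i := by
  unfold tt
  have := th_le_one (sc i) h0 h1
  have h2 : (0 : ℝ) ≤ (1 / 2) ^ i := by positivity
  nlinarith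

theorem summable_tt {h : ℝ} (h0 : 0 ≤ h) (h1 : h ≤ 1) : Summable (tt h) :=
  Summable.of_nonneg_of_le (tt_nonneg h1) (tt_le h0 h1) summable_geometric_two

theorem head_sum (i : ℕ) : ∑ l ∈ range (i + 1), (1 / 2 : ℝ) ^ l = 2 - (1 / 2) ^ i := by
  induction i with
  | zero => norm_num
  | succ i ih =>
    rw [sum_range_succ, ih, pow_succ]
    ring

theorem tail_sum (i : ℕ) : ∑' l : ℕ, (1 / 2 : ℝ) ^ (l + (i + 1)) = (1 / 2) ^ i := by
  have h1 : ∀ l : ℕ, (1 / 2 : ℝ) ^ (l + (i + 1)) = (1 / 2) ^ l * (1 / 2) ^ (i + 1) :=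
    fun l => pow_add _ _ _
  simp only [h1]
  rw [tsum_mul_right, tsum_geometric_two, pow_succ]
  ring

theorem T_split {h : ℝ} (h0 : 0 ≤ h) (h1 : h ≤ 1) (i : ℕ) :
    T h = ∑ l ∈ range (i + 1), tt h l + ∑' l : ℕ, tt h (l + (i + 1)) :=
  ((summable_tt h0 h1).sum_add_tsum_nat_add (i + 1)).symm

/-- lower bound -/
theorem T_ge {h : ℝ} (h0 : 0 ≤ h) (h1 : h ≤ 1) (i : ℕ) :
    2 - (1 / 2) ^ i - 2 * sc i * h ≤ T h := by
  rw [T_split h0 h1 i]
  have h2 : 0 ≤ ∑' l : ℕ, tt h (l + (i + 1)) := tsum_nonneg fun l => tt_nonneg h1 _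
  have h3 : ∀ l ∈ range (i + 1), (1 / 2 : ℝ) ^ l - (1 / 2) ^ l * (sc i * h) ≤ tt h l := by
    intro l hl
    have h4 := th_ge (n := sc l) (by have := two_le_sc l; omega) h0 h1
    have h5 : (sc l : ℝ) ≤ sc i := by
      exact_mod_cast sc_mono (Nat.lt_succ_iff.1 (mem_range.1 hl))
    have h6 : 1 - sc i * h ≤ th (sc l) h := by nlinarith
    unfold tt
    have h7 : (0 : ℝ) ≤ (1 / 2) ^ l := by positivity
    nlinarith
  have h4 := sum_le_sum h3
  rw [sum_sub_distrib, ← sum_mul, head_sum] at h4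
  have h5 : (0 : ℝ) ≤ (1 / 2) ^ i := by positivity
  have h6 : 0 ≤ sc i * h := mul_nonneg (sc_pos i).le h0
  nlinarith

/-- upper bound -/
theorem T_le {h : ℝ} (h0 : 0 < h) (h1 : h ≤ 1) (i : ℕ) :
    T h ≤ 2 - (1 / 2) ^ i + (1 / 2) ^ i / (sc i ^ 8 * h) - h / 2 := by
  rw [T_split h0.le h1 i]
  have h2 : ∑ l ∈ range (i + 1), tt h l ≤ 2 - (1 / 2) ^ i - h / 2 := by
    rw [← head_sum i, sum_range_succ', sum_range_succ']
    have h3 : tt h 0 = 1 - h / 2 := by
      unfold tt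
      rw [sc_zero, th_two]
      simp
    have h4 : ∑ l ∈ range i, tt h (l + 1) ≤ ∑ l ∈ range i, (1 / 2 : ℝ) ^ (l + 1) :=
      sum_le_sum fun l _ => tt_le h0.le h1 _
    rw [h3]
    simp only [pow_zero]
    linarith
  have h3 : ∑' l : ℕ, tt h (l + (i + 1)) ≤ (1 / 2) ^ i / (sc i ^ 8 * h) := by
    have h4 : ∀ l : ℕ, tt h (l + (i + 1)) ≤ (1 / 2) ^ (l + (i + 1)) * (1 / (sc i ^ 8 * h)) := by
      intro l
      unfold tt
      refine mul_le_mul_of_nonneg_left ?_ (by positivity)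
      refine (th_le_inv (by have := two_le_sc (l + (i + 1)); omega) h0 h1).trans ?_
      have h5 : (sc i : ℝ) ^ 8 ≤ sc (l + (i + 1)) := by
        have : sc i ^ 8 ≤ sc (l + (i + 1)) := by
          rw [← sc_succ]
          exact sc_mono (by omega)
        exact_mod_cast this
      have h6 := sc_pos i
      exact one_div_le_one_div_of_le (by positivity) (mul_le_mul_of_nonneg_right h5 h0.le)
    have h5 : Summable fun l : ℕ => (1 / 2 : ℝ) ^ (l + (i + 1)) :=
      (summable_nat_add_iff (i + 1)).2 summable_geometric_two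
    have h6 : ∑' l : ℕ, tt h (l + (i + 1)) ≤
        ∑' l : ℕ, (1 / 2 : ℝ) ^ (l + (i + 1)) * (1 / (sc i ^ 8 * h)) :=
      ((summable_nat_add_iff (i + 1)).2 (summable_tt h0.le h1)).tsum_le_tsum h4
        (h5.mul_right _)
    rw [tsum_mul_right, tail_sum] at h6
    rw [mul_one_div] at h6
    exact h6
  linarith

theorem T_strict {h h' : ℝ} (h0 : 0 ≤ h) (hh : h < h') (h1 : h' ≤ 1) : T h' < T h := by
  unfold T
  refine Summable.tsum_lt_tsum (i := 0) (fun i => ?_) ?_ (summable_tt (by linarith) h1)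
    (summable_tt h0 (by linarith))
  · unfold tt
    exact mul_le_mul_of_nonneg_left (th_anti _ hh.le h1) (by positivity)
  · unfold tt
    rw [sc_zero, th_two, th_two]
    simp only [pow_zero]
    linarith

/-- flatness, one scale -/
theorem T_le_scale {h : ℝ} (h1 : h ≤ 1) (i : ℕ) (hi : 2 / sc i ≤ h) :
    (1 / 2) ^ (i + 1) ≤ 2 - T h := by
  have hs := sc_pos i
  have h0 : 0 < h := lt_of_lt_of_le (by positivity) hi
  have h2 : th (sc i) h ≤ 1 / 2 := by
    refine (th_le_inv (by have := two_le_sc i; omega) h0 h1).trans ?_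
    rw [div_le_iff₀ hs] at hi
    exact one_div_le_one_div_of_le (by norm_num) (by linarith)
  have h3 : T h ≤ ∑' l, ((1 / 2 : ℝ) ^ l - if l = i then (1 / 2) ^ (i + 1) else 0) := by
    have hs2 : Summable fun l : ℕ => (if l = i then (1 / 2 : ℝ) ^ (i + 1) else 0) :=
      (hasSum_ite_eq i _).summable
    refine (summable_tt h0.le h1).tsum_le_tsum (fun l => ?_) (summable_geometric_two.sub hs2)
    split_ifs with hl
    · subst hl
      unfold tt
      have : (0 : ℝ) ≤ (1 / 2) ^ l := by positivity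
      rw [pow_succ]
      nlinarith
    · rw [sub_zero]
      exact tt_le h0.le h1 l
  have hs2 : Summable fun l : ℕ => (if l = i then (1 / 2 : ℝ) ^ (i + 1) else 0) :=
    (hasSum_ite_eq i _).summable
  rw [summable_geometric_two.tsum_sub hs2, tsum_geometric_two, tsum_ite_eq] at h3
  linarith

theorem lin_le_pow (k j : ℕ) : (j + 2) * k + 1 ≤ 8 ^ j + ((k + 2) * k + 1) := by
  rcases le_or_gt j k with h | h
  · have : (j + 2) * k ≤ (k + 2) * k := Nat.mul_le_mul_right _ (by omega)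
    linarith [Nat.zero_le (8 ^ j)]
  · have h1 : ∀ m : ℕ, (m + 2) * m ≤ 8 ^ m + 2 := by
      intro m
      induction m with
      | zero => norm_num
      | succ m ih =>
        rw [pow_succ]
        have : m < 8 ^ m := Nat.lt_pow_self (by norm_num)
        nlinarith
    have h2 : (j + 2) * k ≤ (j + 2) * j := Nat.mul_le_mul_left _ (by omega)
    have h3 := h1 j
    nlinarith

/-- flatness of the inverse function -/
theorem flat (k : ℕ) : ∃ C : ℝ, 0 < C ∧ ∀ h : ℝ, 0 < h → h ≤ 1 → h ≤ C * (2 - T h) ^ k := by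
  refine ⟨2 ^ ((k + 2) * k + 1), by positivity, fun h h0 h1 => ?_⟩
  have hex : ∃ i : ℕ, 2 / (sc i : ℝ) ≤ h := by
    obtain ⟨N, hN⟩ := exists_nat_gt (2 / h)
    refine ⟨N, ?_⟩
    have h2 : N < sc N := by
      unfold sc
      calc N < 8 ^ N := Nat.lt_pow_self (by norm_num)
        _ < 2 ^ 8 ^ N := Nat.lt_pow_self (by norm_num)
    have h3 : (N : ℝ) < sc N := by exact_mod_cast h2
    rw [div_le_iff₀ (sc_pos N)]
    rw [div_lt_iff₀ h0] at hN
    nlinarith
  classical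
  set i := Nat.find hex with hi
  have h2 : 2 / (sc i : ℝ) ≤ h := Nat.find_spec hex
  have h3 := T_le_scale h1 i h2
  have h4 : ((1 / 2 : ℝ) ^ (i + 1)) ^ k ≤ (2 - T h) ^ k :=
    pow_le_pow_left₀ (by positivity) h3 k
  have h5 : h ≤ 2 ^ ((k + 2) * k + 1) * ((1 / 2 : ℝ) ^ (i + 1)) ^ k := by
    rcases Nat.eq_zero_or_pos i with h6 | h6
    · rw [h6]
      refine h1.trans ?_
      rw [zero_add, pow_one, one_div, inv_pow, ← div_eq_mul_inv, le_div_iff₀ (by positivity),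
        one_mul]
      exact pow_le_pow_right₀ (by norm_num) (by nlinarith)
    · obtain ⟨j, hj⟩ : ∃ j, i = j + 1 := ⟨i - 1, by omega⟩
      have h7 : ¬ 2 / (sc j : ℝ) ≤ h := Nat.find_min hex (by omega)
      rw [not_le] at h7
      refine h7.le.trans ?_
      rw [hj, ← pow_mul, one_div, inv_pow, ← div_eq_mul_inv,
        div_le_div_iff₀ (sc_pos j) (by positivity)]
      have h8 : (sc j : ℝ) = 2 ^ 8 ^ j := by
        unfold sc
        push_cast
        rfl
      rw [h8, ← pow_succ', ← pow_add]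
      refine pow_le_pow_right₀ (by norm_num) ?_
      have := lin_le_pow k j
      nlinarith
  exact h5.trans (mul_le_mul_of_nonneg_left h4 (by positivity))

end Pool.Agent.V1146.GWS
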