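import Pool.Agent.V1146.GWS.Rec

open MeasureTheory ProbabilityTheory Set Filter Topology
open scoped ENNReal

namespace Pool.Agent.V1146.GWS

theorem annealed_eq (μ : PMF ℕ) (p : ℝ) :
    annealed μ p = 1 - ((treeLaw μ).prod (edgesLaw p)).real FinS := by
  have hm := meas_FinS
  have h1 : annealed μ p = ((treeLaw μ).prod (edgesLaw p)).real FinSᶜ := by
    unfold annealed quenched
    rw [measureReal_def, Measure.prod_apply hm.compl]
    rw [← integral_toReal]
    · rfl
    · exact (measurable_measure_prodMk_left hm.compl).aemeasurable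
    · exact Filter.Eventually.of_forall fun O => measure_lt_top _ _
  rw [h1, measureReal_compl hm]
  simp

theorem annealed_nonneg (μ : PMF ℕ) (p : ℝ) : 0 ≤ annealed μ p := by
  rw [annealed_eq]
  linarith [measureReal_le_one (μ := (treeLaw μ).prod (edgesLaw p)) (s := FinS)]

theorem annealed_le_one (μ : PMF ℕ) (p : ℝ) : annealed μ p ≤ 1 := by
  rw [annealed_eq]
  linarith [measureReal_nonneg (μ := (treeLaw μ).prod (edgesLaw p)) (s := FinS)]

theorem prob_FinS (μ : PMF ℕ) (p : ℝ) :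
    (treeLaw μ).prod (edgesLaw p) FinS = ENNReal.ofReal (1 - annealed μ p) := by
  rw [annealed_eq, sub_sub_cancel, measureReal_def, ENNReal.ofReal_toReal (measure_ne_top _ _)]

theorem cut_eq {p : ℝ} (h0 : 0 ≤ p) (h1 : p ≤ 1) : cut p = p := by
  unfold cut
  rw [min_eq_left h1, max_eq_right h0]

theorem comb {p x : ℝ} (h0 : 0 ≤ p) (h1 : p ≤ 1) (hx : x ≤ 1) :
    ENNReal.ofReal (1 - cut p) + ENNReal.ofReal (cut p) * ENNReal.ofReal (1 - x) =
      ENNReal.ofReal (1 - p * x) := by
  rw [cut_eq h0 h1, ← ENNReal.ofReal_mul h0, ← ENNReal.ofReal_add (by linarith)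
    (mul_nonneg h0 (by linarith))]
  congr 1
  ring

/-- the survival probability is a fixed point -/
theorem fixed (μ : PMF ℕ) {p : ℝ} (h0 : 0 ≤ p) (h1 : p ≤ 1) :
    ENNReal.ofReal (1 - annealed μ p) =
      ∫⁻ k, ENNReal.ofReal (1 - p * annealed μ p) ^ k ∂μ.toMeasure := by
  have h2 := meas_Gam_eq μ p meas_FinS
  rw [Gam_FinS, prob_FinS, comb h0 h1 (annealed_le_one μ p)] at h2
  exact h2

/-- it is the largest one -/
theorem compare (μ : PMF ℕ) {p x : ℝ} (h0 : 0 ≤ p) (h1 : p ≤ 1) (hx : x ≤ 1)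
    (hle : ∫⁻ k, ENNReal.ofReal (1 - p * x) ^ k ∂μ.toMeasure ≤ ENNReal.ofReal (1 - x)) :
    x ≤ annealed μ p := by
  have h2 : ∀ n, (treeLaw μ).prod (edgesLaw p) (Ext n) ≤ ENNReal.ofReal (1 - x) := by
    intro n
    induction n with
    | zero => simp [Ext]
    | succ n ih =>
      show (treeLaw μ).prod (edgesLaw p) (Gam (Ext n)) ≤ _
      rw [meas_Gam_eq μ p (meas_Ext n)]
      refine le_trans (lintegral_mono fun k => ?_) hle
      rw [← comb h0 h1 hx]
      exact pow_le_pow_left' (by gcongr) k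
  have h3 : (treeLaw μ).prod (edgesLaw p) FinS ≤ ENNReal.ofReal (1 - x) := by
    rw [FinS_eq, Ext_mono.measure_iUnion]
    exact iSup_le h2
  rw [prob_FinS, ENNReal.ofReal_le_ofReal_iff (by linarith)] at h3
  linarith

end Pool.Agent.V1146.GWS
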