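import Pool.Agent.V1146.GWS.Fix
import Pool.Agent.V1146.GWS.Ana

open MeasureTheory ProbabilityTheory Set Filter Topology
open scoped ENNReal

namespace Pool.Agent.V1146.GWS

/-- the mass of the atom `sc i` -/
noncomputable def qq (i : ℕ) : ℝ := (1 / 2) ^ i / sc i

theorem qq_nonneg (i : ℕ) : 0 ≤ qq i := div_nonneg (by positivity) (sc_pos i).le

theorem qq_le (i : ℕ) : qq i ≤ (1 / 2) ^ i * (1 / 2) := by
  unfold qq
  rw [div_eq_mul_one_div]
  exact mul_le_mul_of_nonneg_left (one_div_le_one_div_of_le (by norm_num) (two_le_sc' i))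
    (by positivity)

theorem summable_qq : Summable qq :=
  Summable.of_nonneg_of_le qq_nonneg qq_le (summable_geometric_two.mul_right _)

/-- the total mass of the atoms `sc i` -/
noncomputable def QQ : ℝ := ∑' i, qq i

theorem QQ_nonneg : 0 ≤ QQ := tsum_nonneg qq_nonneg

theorem QQ_le : QQ ≤ 1 := by
  have h1 : QQ ≤ ∑' i : ℕ, (1 / 2 : ℝ) ^ i * (1 / 2) :=
    summable_qq.tsum_le_tsum qq_le (summable_geometric_two.mul_right _)
  rw [tsum_mul_right, tsum_geometric_two] at h1
  linarith

/-- the masses: `0` gets the rest -/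
noncomputable def wt : ℕ → ℝ≥0∞
  | 0 => ENNReal.ofReal (1 - QQ)
  | i + 1 => ENNReal.ofReal (qq i)

theorem hasSum_wt : HasSum wt 1 := by
  have h1 : ∑' i, wt i = 1 := by
    rw [tsum_eq_zero_add' ENNReal.summable]
    show ENNReal.ofReal (1 - QQ) + ∑' i, ENNReal.ofReal (qq i) = 1
    rw [← ENNReal.ofReal_tsum_of_nonneg qq_nonneg summable_qq]
    rw [← ENNReal.ofReal_add (by linarith [QQ_le]) (tsum_nonneg qq_nonneg)]
    have : 1 - QQ + ∑' i, qq i = 1 := by unfold QQ; ring
    rw [this, ENNReal.ofReal_one]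
  rw [← h1]
  exact ENNReal.summable.hasSum

/-- the law of the index of the atom -/
noncomputable def base : PMF ℕ := ⟨wt, hasSum_wt⟩

/-- the atoms -/
def val : ℕ → ℕ
  | 0 => 0
  | i + 1 => sc i

/-- the offspring law: mass `2 ^ (-i) / n_i` at `n_i = 2 ^ (8 ^ i)`, the rest at `0` -/
noncomputable def law : PMF ℕ := base.map val

theorem lint_law (F : ℕ → ℝ≥0∞) : ∫⁻ k, F k ∂law.toMeasure =
    ENNReal.ofReal (1 - QQ) * F 0 + ∑' i, ENNReal.ofReal (qq i) * F (sc i) := by
  have hv : Measurable val := measurable_of_countable _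
  have hF : Measurable F := measurable_of_countable _
  unfold law
  rw [← PMF.toMeasure_map (p := base) (f := val) hv, lintegral_map hF hv, lintegral_countable']
  rw [tsum_eq_zero_add' ENNReal.summable]
  congr 1
  · rw [PMF.toMeasure_apply_singleton base 0 (measurableSet_singleton 0), mul_comm]
    rfl
  · refine tsum_congr fun i => ?_
    rw [PMF.toMeasure_apply_singleton base (i + 1) (measurableSet_singleton _), mul_comm]
    rfl

theorem tsum_law (F : ℕ → ℝ≥0∞) : ∑' k, law k * F k =
    ENNReal.ofReal (1 - QQ) * F 0 + ∑' i, ENNReal.ofReal (qq i) * F (sc i) := by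
  rw [← lint_law, lintegral_countable']
  refine tsum_congr fun k => ?_
  rw [PMF.toMeasure_apply_singleton law k (measurableSet_singleton _), mul_comm]

theorem mean_law : ∑' k : ℕ, law k * (k : ℝ≥0∞) = 2 := by
  rw [tsum_law]
  have h1 : ∀ i : ℕ, ENNReal.ofReal (qq i) * ((sc i : ℕ) : ℝ≥0∞) =
      ENNReal.ofReal ((1 / 2) ^ i) := by
    intro i
    rw [← ENNReal.ofReal_natCast, ← ENNReal.ofReal_mul (qq_nonneg i)]
    congr 1
    unfold qq
    rw [div_mul_cancel₀ _ (sc_pos i).ne']
  simp only [h1, Nat.cast_zero, mul_zero, zero_add]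
  rw [← ENNReal.ofReal_tsum_of_nonneg (fun i => by positivity) summable_geometric_two,
    tsum_geometric_two]
  norm_num

theorem qq_term {h : ℝ} (i : ℕ) : qq i * (1 - (1 - h) ^ sc i) = h * tt h i := by
  have h1 := mul_th (n := sc i) (by have := two_le_sc i; omega) h
  rw [← h1]
  unfold qq tt
  have := (sc_pos i).ne'
  field_simp

theorem hT_le {h : ℝ} (h0 : 0 ≤ h) (h1 : h ≤ 1) : h * T h ≤ 1 := by
  have h2 : h * T h ≤ QQ := by
    unfold T QQ
    rw [← tsum_mul_left]
    refine ((summable_tt h0 h1).mul_left h).tsum_le_tsum (fun i => ?_) summable_qq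
    rw [← qq_term]
    have h3 : 0 ≤ (1 - h) ^ sc i := pow_nonneg (by linarith) _
    nlinarith [qq_nonneg i]
  exact h2.trans QQ_le

theorem lint_pow {h : ℝ} (h0 : 0 ≤ h) (h1 : h ≤ 1) :
    ∫⁻ k, ENNReal.ofReal (1 - h) ^ k ∂law.toMeasure = ENNReal.ofReal (1 - h * T h) := by
  rw [lint_law]
  have h2 : ∀ i : ℕ, ENNReal.ofReal (qq i) * ENNReal.ofReal (1 - h) ^ sc i =
      ENNReal.ofReal (qq i - h * tt h i) := by
    intro i
    rw [← ENNReal.ofReal_pow (by linarith), ← ENNReal.ofReal_mul (qq_nonneg i)]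
    congr 1
    linear_combination -(qq_term (h := h) i)
  simp only [h2, pow_zero, mul_one]
  have h3 : ∀ i, 0 ≤ qq i - h * tt h i := by
    intro i
    rw [← qq_term]
    have h3 : 0 ≤ (1 - h) ^ sc i := pow_nonneg (by linarith) _
    nlinarith [qq_nonneg i]
  have h4 : Summable fun i => qq i - h * tt h i := summable_qq.sub ((summable_tt h0 h1).mul_left h)
  rw [← ENNReal.ofReal_tsum_of_nonneg h3 h4, ← ENNReal.ofReal_add (by linarith [QQ_le])
    (tsum_nonneg h3), summable_qq.tsum_sub ((summable_tt h0 h1).mul_left h), tsum_mul_left]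
  congr 1
  unfold QQ T
  ring

/-- the fixed point equation for `p > 1 / 2` -/
theorem key {p : ℝ} (hp : 1 / 2 < p) (hp1 : p ≤ 1) :
    0 < annealed law p ∧ T (p * annealed law p) = 1 / p := by
  have hp0 : 0 < p := by linarith
  have hpos : 0 < annealed law p := by
    set η : ℝ := 2 - 1 / p with hη
    have hη0 : 0 < η := by
      have : 1 / p < 2 := by
        rw [div_lt_iff₀ hp0]
        linarith
      linarith
    obtain ⟨i, hi⟩ := exists_pow_lt_of_lt_one (show 0 < η / 2 by linarith)
      (show (1 / 2 : ℝ) < 1 by norm_num)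
    have hs := sc_pos i
    set x : ℝ := min 1 (η / (4 * sc i)) with hx
    have hx0 : 0 < x := lt_min one_pos (by positivity)
    have hx1 : x ≤ 1 := min_le_left _ _
    have hx2 : x ≤ η / (4 * sc i) := min_le_right _ _
    have hpx : p * x ≤ x := by nlinarith
    have hpx1 : p * x ≤ 1 := hpx.trans hx1
    have hT := T_ge (mul_nonneg hp0.le hx0.le) hpx1 i
    have h3 : 2 * sc i * (p * x) ≤ η / 2 := by
      have h4 : 2 * (sc i : ℝ) * (p * x) ≤ 2 * sc i * (η / (4 * sc i)) :=
        mul_le_mul_of_nonneg_left (hpx.trans hx2) (by positivity)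
      have h5 : 2 * (sc i : ℝ) * (η / (4 * sc i)) = η / 2 := by
        field_simp
        ring
      linarith
    have hT2 : 1 / p ≤ T (p * x) := by linarith
    have h6 : x ≤ annealed law p := by
      refine compare law hp0.le hp1 hx1 ?_
      rw [lint_pow (mul_nonneg hp0.le hx0.le) hpx1]
      refine ENNReal.ofReal_le_ofReal ?_
      have h7 : 1 ≤ p * T (p * x) := by
        rw [div_le_iff₀ hp0] at hT2
        linarith
      nlinarith
    linarith
  refine ⟨hpos, ?_⟩
  set g := annealed law p with hg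
  have hg1 : g ≤ 1 := annealed_le_one _ _
  have hpg0 : 0 ≤ p * g := by positivity
  have hpg1 : p * g ≤ 1 := by nlinarith
  have h1 := fixed law hp0.le hp1
  rw [← hg, lint_pow hpg0 hpg1] at h1
  have h2 := congrArg ENNReal.toReal h1
  rw [ENNReal.toReal_ofReal (by linarith), ENNReal.toReal_ofReal
    (by linarith [hT_le hpg0 hpg1])] at h2
  have h3 : g = (p * T (p * g)) * g := by linear_combination -h2
  have h4 : p * T (p * g) = 1 := by
    have h5 : (p * T (p * g) - 1) * g = 0 := by linear_combination -h3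
    rcases mul_eq_zero.1 h5 with h | h
    · linarith
    · exact absurd h hpos.ne'
  rw [eq_div_iff hp0.ne']
  linarith

end Pool.Agent.V1146.GWS
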