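import Mathlib

open MeasureTheory ProbabilityTheory Set Filter Topology
open scoped ENNReal

namespace Pool.Agent.V1146.GWS

/-! ### definitions -/

/-- The open cluster of the root.  The vertices are labelled by finite sequences of natural numbers,
the root being `[]` and the children of `u` being `u ++ [i]`, `i < O u`; here `O u` is the number of
children of `u`, and the edge from `u` to `u ++ [i]` is open if `E u i = true`.  A vertex belongs to
the cluster if all edges on the path from the root to it exist and are open. -/
def cluster (O : List ℕ → ℕ) (E : List ℕ → ℕ → Bool) : Set (List ℕ) :=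
  {v | ∀ u i, u ++ [i] <+: v → i < O u ∧ E u i = true}

/-- The number `p` cut off to the interval `[0, 1]`; it is `p` for `0 ≤ p ≤ 1`. -/
noncomputable def cut (p : ℝ) : ℝ := max 0 (min p 1)

/-- The law of the state of one edge: open (`true`) with probability `p`. -/
noncomputable def edgeLaw (p : ℝ) : Measure Bool :=
  ENNReal.ofReal (cut p) • Measure.dirac true + ENNReal.ofReal (1 - cut p) • Measure.dirac false

theorem cut_nonneg (p : ℝ) : 0 ≤ cut p := le_max_left _ _

theorem cut_le_one (p : ℝ) : cut p ≤ 1 := max_le zero_le_one (min_le_right _ _)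

instance (p : ℝ) : IsProbabilityMeasure (edgeLaw p) := by
  constructor
  unfold edgeLaw
  rw [Measure.add_apply, Measure.smul_apply, Measure.smul_apply, measure_univ, measure_univ,
    smul_eq_mul, smul_eq_mul, mul_one, mul_one,
    ← ENNReal.ofReal_add (cut_nonneg p) (by linarith [cut_le_one p])]
  simp

/-- The law of the Galton-Watson tree: independent numbers of children with law `μ`. -/
noncomputable def treeLaw (μ : PMF ℕ) : Measure (List ℕ → ℕ) :=
  Measure.infinitePi fun _ : List ℕ => μ.toMeasure

/-- The law of the percolation: independent edges, each open with probability `p`. -/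
noncomputable def edgesLaw (p : ℝ) : Measure (List ℕ → ℕ → Bool) :=
  Measure.infinitePi fun _ : List ℕ => Measure.infinitePi fun _ : ℕ => edgeLaw p

/-- The quenched survival function of the tree with offspring numbers `O`. -/
noncomputable def quenched (O : List ℕ → ℕ) (p : ℝ) : ℝ :=
  (edgesLaw p).real {E | (cluster O E).Infinite}

/-- The annealed survival function. -/
noncomputable def annealed (μ : PMF ℕ) (p : ℝ) : ℝ := ∫ O, quenched O p ∂(treeLaw μ)

instance (μ : PMF ℕ) : IsProbabilityMeasure (treeLaw μ) := by
  unfold treeLaw; infer_instance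

instance (p : ℝ) : IsProbabilityMeasure (edgesLaw p) := by
  unfold edgesLaw; infer_instance

/-! ### the decomposition at the root -/

/-- the family seen from the `i`-th child of the root -/
def sh {α : Type} (i : ℕ) (ω : List ℕ → α) : List ℕ → α := fun w => ω (i :: w)

theorem nil_mem (O : List ℕ → ℕ) (E : List ℕ → ℕ → Bool) : [] ∈ cluster O E := by
  intro u i h
  simp at h

theorem cons_mem (O : List ℕ → ℕ) (E : List ℕ → ℕ → Bool) (i : ℕ) (w : List ℕ) :
    i :: w ∈ cluster O E ↔ (i < O [] ∧ E [] i = true) ∧ w ∈ cluster (sh i O) (sh i E) := by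
  constructor
  · intro h
    refine ⟨h [] i (by simp), fun u j hu => ?_⟩
    exact h (i :: u) j (by simpa using hu)
  · rintro ⟨h1, h2⟩ u j hu
    cases u with
    | nil =>
      have hj : j = i := by simpa using hu
      subst hj
      exact h1
    | cons a u =>
      rw [List.cons_append, List.cons_prefix_cons] at hu
      obtain ⟨rfl, hu⟩ := hu
      exact h2 u j hu

theorem finite_iff (O : List ℕ → ℕ) (E : List ℕ → ℕ → Bool) :
    (cluster O E).Finite ↔
      ∀ i, i < O [] → E [] i = true → (cluster (sh i O) (sh i E)).Finite := by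
  constructor
  · intro h i hi hE
    have h1 : (cluster (sh i O) (sh i E)) ⊆ (fun w => i :: w) ⁻¹' (cluster O E) := by
      intro w hw
      exact (cons_mem O E i w).2 ⟨⟨hi, hE⟩, hw⟩
    exact (h.preimage (fun a _ b _ hab => by simpa using hab)).subset h1
  · intro h
    have h1 : cluster O E ⊆ insert [] (⋃ i ∈ {i : ℕ | i < O [] ∧ E [] i = true},
        (fun w => i :: w) '' cluster (sh i O) (sh i E)) := by
      intro v hv
      cases v with
      | nil => exact Or.inl rfl
      | cons i w =>
        obtain ⟨h1, h2⟩ := (cons_mem O E i w).1 hv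
        refine Or.inr ?_
        simp only [mem_iUnion]
        exact ⟨i, h1, w, h2, rfl⟩
    refine Set.Finite.subset (Set.Finite.insert _ (Set.Finite.biUnion ?_ ?_)) h1
    · exact (Set.finite_lt_nat (O [])).subset fun i hi => hi.1
    · intro i hi
      exact (h i hi.1 hi.2).image _

/-- the sample space -/
abbrev Sp : Type := (List ℕ → ℕ) × (List ℕ → ℕ → Bool)

/-- all open children of the root see a configuration of `A` -/
def Gam (A : Set Sp) : Set Sp :=
  {x | ∀ i, i < x.1 [] → x.2 [] i = true → (sh i x.1, sh i x.2) ∈ A}

theorem Gam_mono {A B : Set Sp} (h : A ⊆ B) : Gam A ⊆ Gam B :=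
  fun _ hx i h1 h2 => h (hx i h1 h2)

/-- the cluster is finite -/
def FinS : Set Sp := {x | (cluster x.1 x.2).Finite}

theorem Gam_FinS : Gam FinS = FinS := by
  ext x
  exact (finite_iff x.1 x.2).symm

/-- extinction before generation `n` -/
def Ext : ℕ → Set Sp
  | 0 => ∅
  | n + 1 => Gam (Ext n)

theorem Ext_mono_succ (n : ℕ) : Ext n ⊆ Ext (n + 1) := by
  induction n with
  | zero => exact Set.empty_subset _
  | succ n ih => exact Gam_mono ih

theorem Ext_mono : Monotone Ext := monotone_nat_of_le_succ Ext_mono_succ

theorem Ext_sub (n : ℕ) : Ext n ⊆ FinS := by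
  induction n with
  | zero => exact Set.empty_subset _
  | succ n ih =>
    rw [← Gam_FinS]
    exact Gam_mono ih

theorem sub_Ext (n : ℕ) : ∀ (O : List ℕ → ℕ) (E : List ℕ → ℕ → Bool),
    (∀ v ∈ cluster O E, v.length < n) → (O, E) ∈ Ext n := by
  induction n with
  | zero =>
    intro O E h
    exact absurd (h [] (nil_mem O E)) (by simp)
  | succ n ih =>
    intro O E h i hi hE
    refine ih _ _ fun w hw => ?_
    have := h (i :: w) ((cons_mem O E i w).2 ⟨⟨hi, hE⟩, hw⟩)
    simpa using this

theorem FinS_eq : FinS = ⋃ n, Ext n := by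
  apply Set.Subset.antisymm
  · rintro ⟨O, E⟩ h
    have h1 : (cluster O E).Finite := h
    obtain ⟨M, hM⟩ := (h1.image List.length).bddAbove
    refine mem_iUnion.2 ⟨M + 1, sub_Ext _ _ _ fun v hv => ?_⟩
    exact Nat.lt_succ_of_le (hM ⟨v, hv, rfl⟩)
  · exact iUnion_subset Ext_sub

theorem measurable_sh {α : Type} [MeasurableSpace α] (i : ℕ) :
    Measurable (sh i : (List ℕ → α) → List ℕ → α) :=
  measurable_pi_iff.2 fun _ => measurable_pi_apply _

theorem meas_Gam {A : Set Sp} (hA : MeasurableSet A) : MeasurableSet (Gam A) := by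
  have h1 : Gam A = ⋂ i : ℕ, ({x : Sp | i < x.1 []}ᶜ ∪ ({x : Sp | x.2 [] i = true}ᶜ ∪
      (fun x : Sp => ((sh i x.1, sh i x.2) : Sp)) ⁻¹' A)) := by
    ext x
    simp only [Gam, mem_ofPred_eq, mem_iInter, mem_union, mem_compl_iff, mem_preimage]
    refine forall_congr' fun i => ?_
    tauto
  rw [h1]
  refine MeasurableSet.iInter fun i => ?_
  refine MeasurableSet.union ?_ (MeasurableSet.union ?_ ?_)
  · refine MeasurableSet.compl ?_
    have : Measurable fun x : Sp => x.1 [] := (measurable_pi_apply _).comp measurable_fst
    exact this (measurableSet_Ioi : MeasurableSet (Ioi i))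
  · refine MeasurableSet.compl ?_
    have : Measurable fun x : Sp => x.2 [] i :=
      (measurable_pi_apply i).comp ((measurable_pi_apply _).comp measurable_snd)
    exact this (measurableSet_singleton true)
  · have : Measurable fun x : Sp => ((sh i x.1, sh i x.2) : Sp) :=
      ((measurable_sh i).comp measurable_fst).prodMk ((measurable_sh i).comp measurable_snd)
    exact this hA

theorem meas_Ext (n : ℕ) : MeasurableSet (Ext n) := by
  induction n with
  | zero => exact MeasurableSet.empty
  | succ n ih => exact meas_Gam ih

theorem meas_FinS : MeasurableSet FinS := by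
  rw [FinS_eq]
  exact MeasurableSet.iUnion meas_Ext

end Pool.Agent.V1146.GWS
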