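import Pool.Agent.V1146.GWS.Prob

open MeasureTheory ProbabilityTheory Set Filter Topology
open scoped ENNReal

namespace Pool.Agent.V1146.GWS

section split

variable {α : Type} [MeasurableSpace α] (ν : Measure α) [IsProbabilityMeasure ν]

/-- join a value and a family -/
def join {κ : Type} (p : α × (κ → α)) : Option κ → α := fun o => o.elim p.1 p.2

lemma measurable_join {κ : Type} : Measurable (join (κ := κ) (α := α)) := by
  rw [measurable_pi_iff]
  rintro (_ | k)
  · exact measurable_fst
  · exact (measurable_pi_apply k).comp measurable_snd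

lemma map_join {κ : Type} : (ν.prod (Measure.infinitePi fun _ : κ => ν)).map join =
    Measure.infinitePi fun _ : Option κ => ν := by
  classical
  apply Measure.eq_infinitePi
  intro s t ht
  rw [Measure.map_apply measurable_join (.pi s.countable_toSet fun _ _ => ht _)]
  have h1 : (join ⁻¹' (Set.pi s t) : Set (α × (κ → α))) =
      (if none ∈ s then t none else Set.univ) ×ˢ
        (Set.pi (Finset.eraseNone s) fun k => t (some k)) := by
    ext p
    constructor
    · intro h
      constructor
      · split_ifs with h2
        · exact h none h2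
        · trivial
      · intro k hk
        exact h (some k) (by simpa using hk)
    · rintro ⟨h2, h3⟩ o ho
      rcases o with _ | k
      · have ho' : none ∈ s := ho
        rw [if_pos ho'] at h2
        exact h2
      · exact h3 k (by simpa using ho)
  rw [h1, Measure.prod_prod, Measure.infinitePi_pi _ (fun k _ => ht _)]
  by_cases h2 : none ∈ s
  · rw [if_pos h2]
    have h3 : s = insert none ((Finset.eraseNone s).map Function.Embedding.some) := by
      ext o
      rcases o with _ | k
      · simp [h2]
      · simp
    conv_rhs => rw [h3]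
    rw [Finset.prod_insert (by simp), Finset.prod_map]
    rfl
  · rw [if_neg h2, measure_univ, one_mul]
    have h3 : s = (Finset.eraseNone s).map Function.Embedding.some := by
      ext o
      rcases o with _ | k
      · simp [h2]
      · simp
    conv_rhs => rw [h3]
    rw [Finset.prod_map]
    rfl

/-- split off one coordinate -/
lemma mp_split {ι κ : Type} (f : Option κ → ι) (hf : Function.Injective f) :
    MeasurePreserving (fun ω : ι → α => (ω (f none), fun k : κ => ω (f (some k))))
      (Measure.infinitePi fun _ : ι => ν) (ν.prod (Measure.infinitePi fun _ : κ => ν)) := by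
  have hm : Measurable (fun ω : ι → α => (ω (f none), fun k : κ => ω (f (some k)))) := by
    fun_prop
  refine ⟨hm, ?_⟩
  have h1 := Measure.map_infinitePi_infinitePi_of_inj (P := fun _ : ι => ν) hf
  have hg : Measurable (fun ω : Option κ → α => (ω none, fun k : κ => ω (some k))) := by
    fun_prop
  have h2 : (fun ω : ι → α => (ω (f none), fun k : κ => ω (f (some k)))) =
      (fun ω : Option κ → α => (ω none, fun k : κ => ω (some k))) ∘ (fun ω i => ω (f i)) := rfl
  rw [h2, ← Measure.map_map hg (by fun_prop), h1, ← map_join ν,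
    Measure.map_map hg measurable_join]
  exact Measure.map_id

/-- decomposition of an independent family indexed by the vertices at the root -/
theorem mp_tree : MeasurePreserving (fun ω : List ℕ → α => (ω [], fun i : ℕ => sh i ω))
    (Measure.infinitePi fun _ : List ℕ => ν)
    (ν.prod (Measure.infinitePi fun _ : ℕ => Measure.infinitePi fun _ : List ℕ => ν)) := by
  have h1 := mp_split ν (κ := ℕ × List ℕ)
    (fun o => o.elim ([] : List ℕ) fun q => q.1 :: q.2) (by
      rintro (_ | a) (_ | b) h
      · rfl
      · simp at h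
      · simp at h
      · simp only [Option.elim_some, List.cons.injEq] at h
        exact congrArg some (Prod.ext h.1 h.2))
  have h2 : MeasurePreserving (fun (Y : ℕ × List ℕ → α) (i : ℕ) (v : List ℕ) => Y (i, v))
      (Measure.infinitePi fun _ : ℕ × List ℕ => ν)
      (Measure.infinitePi fun _ : ℕ => Measure.infinitePi fun _ : List ℕ => ν) := by
    refine ⟨by fun_prop, ?_⟩
    exact Measure.infinitePi_map_curry (fun (_ : ℕ) (_ : List ℕ) => ν)
  have h3 := (MeasurePreserving.id ν).prod h2
  exact h3.comp h1

/-- integral of a product of functions of different coordinates -/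
theorem lint_prod (s : Finset ℕ) (F : ℕ → α → ℝ≥0∞) (hF : ∀ i, Measurable (F i)) :
    ∫⁻ x : ℕ → α, ∏ i ∈ s, F i (x i) ∂(Measure.infinitePi fun _ : ℕ => ν) =
      ∏ i ∈ s, ∫⁻ a, F i a ∂ν := by
  have h1 : iIndepFun (fun (i : ℕ) (x : ℕ → α) => F i (x i)) (Measure.infinitePi fun _ : ℕ => ν) :=
    iIndepFun_infinitePi (P := fun _ : ℕ => ν) (X := F) hF
  rw [lintegral_prod_eq_prod_lintegral_of_indepFun s _ h1
    (fun i => (hF i).comp (measurable_pi_apply i))]
  refine Finset.prod_congr rfl fun i _ => ?_
  exact (measurePreserving_eval_infinitePi (fun _ : ℕ => ν) i).lintegral_comp (hF i)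

end split

/-- conditional probability of `A` given the tree -/
noncomputable def cond (p : ℝ) (A : Set Sp) (O : List ℕ → ℕ) : ℝ≥0∞ :=
  edgesLaw p (Prod.mk O ⁻¹' A)

theorem measurable_cond (p : ℝ) {A : Set Sp} (hA : MeasurableSet A) : Measurable (cond p A) :=
  measurable_measure_prodMk_left hA

theorem lint_edge (p : ℝ) (c : ℝ≥0∞) :
    ∫⁻ b, (if b = true then c else 1) ∂(edgeLaw p) =
      ENNReal.ofReal (1 - cut p) + ENNReal.ofReal (cut p) * c := by
  unfold edgeLaw
  rw [lintegral_add_measure, lintegral_smul_measure, lintegral_smul_measure, lintegral_dirac,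
    lintegral_dirac]
  simp [add_comm]

theorem cond_Gam (p : ℝ) {A : Set Sp} (hA : MeasurableSet A) (O : List ℕ → ℕ) :
    cond p (Gam A) O = ∏ i ∈ Finset.range (O []),
      (ENNReal.ofReal (1 - cut p) + ENNReal.ofReal (cut p) * cond p A (sh i O)) := by
  classical
  set ν : Measure (ℕ → Bool) := Measure.infinitePi fun _ : ℕ => edgeLaw p with hν
  have hsl : ∀ i, MeasurableSet (Prod.mk (sh i O) ⁻¹' A : Set (List ℕ → ℕ → Bool)) :=
    fun i => measurable_prodMk_left hA
  set T : Set ((ℕ → Bool) × (ℕ → List ℕ → ℕ → Bool)) :=
    {y | ∀ i, i < O [] → y.1 i = true → y.2 i ∈ Prod.mk (sh i O) ⁻¹' A} with hT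
  have hTm : MeasurableSet T := by
    have h1 : T = ⋂ i : ℕ, ({y | i < O []}ᶜ ∪ ({y | y.1 i = true}ᶜ ∪
        (fun y : (ℕ → Bool) × (ℕ → List ℕ → ℕ → Bool) => y.2 i) ⁻¹'
          (Prod.mk (sh i O) ⁻¹' A))) := by
      ext x
      simp only [hT, mem_ofPred_eq, mem_iInter, mem_union, mem_compl_iff, mem_preimage]
      refine forall_congr' fun i => ?_
      tauto
    rw [h1]
    refine MeasurableSet.iInter fun i => ?_
    refine MeasurableSet.union (MeasurableSet.compl (MeasurableSet.const _))
      (MeasurableSet.union ?_ ?_)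
    · refine MeasurableSet.compl ?_
      have : Measurable fun y : (ℕ → Bool) × (ℕ → List ℕ → ℕ → Bool) => y.1 i :=
        (measurable_pi_apply i).comp measurable_fst
      exact this (measurableSet_singleton true)
    · exact ((measurable_pi_apply i).comp measurable_snd) (hsl i)
  have h1 := (mp_tree ν).measure_preimage hTm.nullMeasurableSet
  have h2 : cond p (Gam A) O = (ν.prod (Measure.infinitePi fun _ : ℕ =>
      Measure.infinitePi fun _ : List ℕ => ν)) T := h1
  rw [h2, Measure.prod_apply hTm]
  have h3 : ∀ e : ℕ → Bool, (Measure.infinitePi fun _ : ℕ =>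
      Measure.infinitePi fun _ : List ℕ => ν) (Prod.mk e ⁻¹' T) =
      ∏ i ∈ Finset.range (O []), (if e i = true then cond p A (sh i O) else 1) := by
    intro e
    have h4 : (Prod.mk e ⁻¹' T : Set (ℕ → List ℕ → ℕ → Bool)) =
        Set.pi (Finset.range (O [])) (fun i => if e i = true then Prod.mk (sh i O) ⁻¹' A
          else Set.univ) := by
      ext y
      simp only [hT, mem_preimage, mem_ofPred_eq, Set.mem_pi, Finset.coe_range, mem_Iio]
      refine forall_congr' fun i => ?_
      refine imp_congr_right fun hi => ?_
      by_cases he : e i = true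
      · simp [he]
      · simp [he]
    rw [h4, Measure.infinitePi_pi]
    · refine Finset.prod_congr rfl fun i _ => ?_
      by_cases he : e i = true
      · simp only [he, if_true]
        rfl
      · simp only [he]
        simp
    · intro i _
      split_ifs
      · exact hsl i
      · exact MeasurableSet.univ
  simp only [h3]
  rw [hν, lint_prod (edgeLaw p) (Finset.range (O []))
    (fun i b => if b = true then cond p A (sh i O) else 1) (fun i => measurable_of_countable _)]
  refine Finset.prod_congr rfl fun i _ => ?_
  exact lint_edge p _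

/-- **The recursion.** -/
theorem meas_Gam_eq (μ : PMF ℕ) (p : ℝ) {A : Set Sp} (hA : MeasurableSet A) :
    (treeLaw μ).prod (edgesLaw p) (Gam A) =
      ∫⁻ k, (ENNReal.ofReal (1 - cut p) + ENNReal.ofReal (cut p) *
        (treeLaw μ).prod (edgesLaw p) A) ^ k ∂μ.toMeasure := by
  rw [Measure.prod_apply (meas_Gam hA)]
  have h1 : ∀ O : List ℕ → ℕ, edgesLaw p (Prod.mk O ⁻¹' Gam A) =
      ∏ i ∈ Finset.range (O []),
      (ENNReal.ofReal (1 - cut p) + ENNReal.ofReal (cut p) * cond p A (sh i O)) :=
    fun O => cond_Gam p hA O
  simp only [h1]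
  set F : (List ℕ → ℕ) → ℝ≥0∞ := fun O =>
    ENNReal.ofReal (1 - cut p) + ENNReal.ofReal (cut p) * cond p A O with hF
  have hFm : Measurable F := measurable_const.add (measurable_const.mul (measurable_cond p hA))
  have hG : Measurable fun y : ℕ × (ℕ → List ℕ → ℕ) => ∏ i ∈ Finset.range y.1, F (y.2 i) := by
    apply measurable_from_prod_countable_right
    intro k
    show Measurable fun y : ℕ → List ℕ → ℕ => ∏ i ∈ Finset.range k, F (y i)
    exact Finset.measurable_prod _ (fun i _ => hFm.comp (measurable_pi_apply i))
  have h2 := (mp_tree μ.toMeasure).lintegral_comp hG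
  have h3 : ∫⁻ O : List ℕ → ℕ, ∏ i ∈ Finset.range (O []), F (sh i O) ∂(treeLaw μ) =
      ∫⁻ y, ∏ i ∈ Finset.range y.1, F (y.2 i) ∂(μ.toMeasure.prod
        (Measure.infinitePi fun _ : ℕ => treeLaw μ)) := h2
  refine h3.trans ?_
  rw [lintegral_prod _ hG.aemeasurable]
  refine lintegral_congr fun k => ?_
  have h4 := lint_prod (treeLaw μ) (Finset.range k) (fun _ => F) (fun _ => hFm)
  rw [h4, Finset.prod_const, Finset.card_range]
  congr 1
  rw [hF, lintegral_add_left measurable_const, lintegral_const, measure_univ, mul_one,
    lintegral_const_mul _ (measurable_cond p hA)]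
  congr 2
  rw [Measure.prod_apply hA]
  rfl

end Pool.Agent.V1146.GWS
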